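import Mathlib

/-!
The number of connected restrictions of a binary matroid of size `k` containing a given element is
at most `2 ^ (Λ k)`, where `Λ` is the minimum over the bases of the cocycle space of the largest
size of a member.
-/

set_option autoImplicit false
set_option linter.unusedSectionVars false

namespace Pool.Agent.Results.MP_0dc42e_co.ConnCount

open Finset Module

variable {E : Type} [Fintype E] [DecidableEq E]

/-- The matrix `A` over `GF(2)` represents the matroid `M` on `E`: the independent sets of `M` are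
the sets of linearly independent columns. -/
def Represents {r : ℕ} (A : Matrix (Fin r) E (ZMod 2)) (M : Matroid E) : Prop :=
  M.E = Set.univ ∧ ∀ I : Set E, M.Indep I ↔ LinearIndepOn (ZMod 2) (fun e => A.transpose e) I

/-- The cocycle space of the matroid represented by `A`: the row space of `A`. -/
def cocycleSpace {r : ℕ} (A : Matrix (Fin r) E (ZMod 2)) : Submodule (ZMod 2) (E → ZMod 2) :=
  Submodule.span (ZMod 2) (Set.range A)

/-- The minimum over the bases of `W` of the largest size (number of nonzero entries) of a member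
of the basis. -/
noncomputable def lam (W : Submodule (ZMod 2) (E → ZMod 2)) : ℕ :=
  sInf {L | ∃ (n : ℕ) (b : Basis (Fin n) (ZMod 2) W),
    ∀ i, (univ.filter (fun e => (b i : E → ZMod 2) e ≠ 0)).card ≤ L}

/-- The restriction of `M` to `S` is connected: every two elements of `S` lie in a common circuit
of `M` contained in `S`. -/
def ConnOn (M : Matroid E) (S : Finset E) : Prop :=
  ∀ x ∈ S, ∀ y ∈ S, x ≠ y → ∃ C : Set E, M.IsCircuit C ∧ C ⊆ S ∧ x ∈ C ∧ y ∈ C

/-- The number of sets `S` of size `k` containing `e` such that `M|S` is connected. -/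
noncomputable def N (M : Matroid E) (e : E) (k : ℕ) : ℕ :=
  Set.ncard {S : Finset E | e ∈ S ∧ S.card = k ∧ ConnOn M S}

lemma cases2 : ∀ z : ZMod 2, z ≠ 0 → z = 1 := by decide

/-- Circuits are orthogonal to the cocycle space. -/
lemma circuit_orth {r : ℕ} {A : Matrix (Fin r) E (ZMod 2)} {M : Matroid E} (h : Represents A M)
    {C : Finset E} (hC : M.IsCircuit (C : Set E)) {w : E → ZMod 2} (hw : w ∈ cocycleSpace A) :
    ∑ g ∈ C, w g = 0 := by
  have hdep : ¬ LinearIndepOn (ZMod 2) (fun e => A.transpose e) (C : Set E) := by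
    rw [← h.2]
    exact hC.not_indep
  rw [linearIndepOn_finset_iff] at hdep
  push Not at hdep
  obtain ⟨c, hc, i, hi, hci⟩ := hdep
  set X : Finset E := C.filter (fun g => c g ≠ 0) with hX
  have hXC : X ⊆ C := filter_subset _ _
  have hsumX : ∑ g ∈ X, A.transpose g = 0 := by
    rw [← hc, hX, sum_filter]
    apply Finset.sum_congr rfl
    intro g _
    split_ifs with h0
    · rw [cases2 _ h0, one_smul]
    · push Not at h0
      rw [h0, zero_smul]
  have hXdep : ¬ M.Indep (X : Set E) := by
    rw [h.2, linearIndepOn_finset_iff]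
    push Not
    refine ⟨fun _ => 1, ?_, i, ?_, one_ne_zero⟩
    · simpa using hsumX
    · rw [hX, mem_filter]
      exact ⟨hi, hci⟩
  have hXeq : X = C := by
    have h1 : (X : Set E) = C := by
      by_contra hne
      have hss : (X : Set E) ⊂ C := lt_of_le_of_ne (coe_subset.2 hXC) hne
      exact hXdep (hC.ssubset_indep hss)
    exact_mod_cast h1
  rw [hXeq] at hsumX
  have hrow : ∀ i, ∑ g ∈ C, A i g = 0 := by
    intro i
    have := congrFun hsumX i
    rwa [Finset.sum_apply] at this
  unfold cocycleSpace at hw
  induction hw using Submodule.span_induction with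
  | mem x hx =>
    obtain ⟨i, rfl⟩ := hx
    exact hrow i
  | zero => simp
  | add x y _ _ hx hy =>
    simp only [Pi.add_apply, Finset.sum_add_distrib, hx, hy, add_zero]
  | smul a x _ hx =>
    simp only [Pi.smul_apply, ← Finset.smul_sum, hx, smul_zero]

/-- A nonempty independent set meets some cocycle in an odd number of elements. -/
lemma exists_odd {r : ℕ} {A : Matrix (Fin r) E (ZMod 2)} {M : Matroid E} (h : Represents A M)
    {X : Finset E} (hX : M.Indep (X : Set E)) (hne : X.Nonempty) :
    ∃ w ∈ cocycleSpace A, ∑ g ∈ X, w g ≠ 0 := by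
  by_contra hcon
  push Not at hcon
  rw [h.2, linearIndepOn_finset_iff] at hX
  obtain ⟨x, hx⟩ := hne
  refine one_ne_zero (hX (fun _ => (1 : ZMod 2)) ?_ x hx)
  funext i
  rw [Finset.sum_apply]
  have := hcon (A i) (Submodule.subset_span ⟨i, rfl⟩)
  simpa using this

/-- The restriction of functions to `A`. -/
def restr (A : Finset E) : (E → ZMod 2) →ₗ[ZMod 2] (A → ZMod 2) :=
  LinearMap.funLeft (ZMod 2) (ZMod 2) (Subtype.val : A → E)

/-- The further restriction. -/
def restr' {A A' : Finset E} (h : A ⊆ A') : (A' → ZMod 2) →ₗ[ZMod 2] (A → ZMod 2) :=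
  LinearMap.funLeft (ZMod 2) (ZMod 2) (fun x : A => (⟨x.1, h x.2⟩ : A'))

lemma restr'_restr {A A' : Finset E} (h : A ⊆ A') (w : E → ZMod 2) :
    restr' h (restr A' w) = restr A w := rfl

section count

variable {M : Matroid E} {r : ℕ} {A₀ : Matrix (Fin r) E (ZMod 2)} {n L : ℕ}
  {b : Basis (Fin n) (ZMod 2) (cocycleSpace A₀)}

/-- The support. -/
def supp (w : E → ZMod 2) : Finset E := univ.filter (fun e => w e ≠ 0)

lemma mem_supp (w : E → ZMod 2) (x : E) : x ∈ supp w ↔ w x ≠ 0 := by
  simp [supp]

/-- If the traces of the rows in `R` on `A` span all traces, and these rows are supported on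
`A ∪ D`, then `A` is the only possibility. -/
lemma stuck (h : Represents A₀ M) {A D S : Finset E} {R : Finset (Fin n)} {e : E} (he : e ∈ A)
    (hAS : A ⊆ S) (hDS : Disjoint D S) (hS : ConnOn M S)
    (hR : ∀ j ∈ R, supp (b j : E → ZMod 2) ⊆ A ∪ D)
    (hspan : ∀ i, restr A (b i : E → ZMod 2) ∈
      Submodule.span (ZMod 2) ((fun i => restr A (b i : E → ZMod 2)) '' (R : Set (Fin n)))) :
    S = A := by
  by_contra hne
  obtain ⟨f, hfS, hfA⟩ : ∃ f ∈ S, f ∉ A := by
    by_contra hcon
    push Not at hcon
    exact hne (Finset.Subset.antisymm hcon hAS)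
  obtain ⟨C, hC, hCS, heC, hfC⟩ := hS e (hAS he) f hfS (by
    rintro rfl
    exact hfA he)
  set C' : Finset E := C.toFinite.toFinset with hC'
  have hCC : (C' : Set E) = C := by simp [hC']
  set X : Finset E := C' ∩ A with hX
  have hmemC : ∀ g, g ∈ C' ↔ g ∈ C := fun g => by simp [hC']
  have hXne : X.Nonempty := ⟨e, mem_inter.2 ⟨(hmemC e).2 heC, he⟩⟩
  have hXind : M.Indep (X : Set E) := by
    apply hC.ssubset_indep
    refine ⟨?_, ?_⟩
    · intro g hg
      rw [mem_coe, hX, mem_inter, hmemC] at hg
      exact hg.1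
    · intro hle
      have := hle hfC
      rw [mem_coe, hX, mem_inter] at this
      exact hfA this.2
  obtain ⟨w, hw, hwX⟩ := exists_odd h hXind hXne
  -- the trace of `w` on `A` is a combination of traces of rows in `R`
  have hwspan : restr A w ∈
      Submodule.span (ZMod 2) ((fun i => restr A (b i : E → ZMod 2)) '' (R : Set (Fin n))) := by
    have h1 := b.sum_repr ⟨w, hw⟩
    have h2 : w = ∑ i, b.repr ⟨w, hw⟩ i • (b i : E → ZMod 2) := by
      have h3 := congrArg (fun z : cocycleSpace A₀ => (z : E → ZMod 2)) h1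
      simp only [Submodule.coe_sum, Submodule.coe_smul] at h3
      exact h3.symm
    rw [h2, map_sum]
    apply Submodule.sum_mem
    intro i _
    rw [map_smul]
    exact Submodule.smul_mem _ _ (hspan i)
  have hex : ∃ u ∈ Submodule.span (ZMod 2) ((fun i => (b i : E → ZMod 2)) '' (R : Set (Fin n))),
      restr A u = restr A w := by
    have h1 : Submodule.map (restr A)
        (Submodule.span (ZMod 2) ((fun i => (b i : E → ZMod 2)) '' (R : Set (Fin n)))) =
        Submodule.span (ZMod 2) ((fun i => restr A (b i : E → ZMod 2)) '' (R : Set (Fin n))) := by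
      rw [Submodule.map_span, Set.image_image]
    rw [← h1] at hwspan
    obtain ⟨u, hu, hu'⟩ := hwspan
    exact ⟨u, hu, hu'⟩
  obtain ⟨u, hu, huw⟩ := hex
  have huW : u ∈ cocycleSpace A₀ ∧ ∀ g, g ∉ A → g ∉ D → u g = 0 := by
    clear huw
    induction hu using Submodule.span_induction with
    | mem x hx =>
      obtain ⟨i, hi, rfl⟩ := hx
      refine ⟨(b i).2, ?_⟩
      intro g hgA hgD
      by_contra hne
      have := hR i (mem_coe.1 hi) ((mem_supp _ g).2 hne)
      rw [mem_union] at this
      tauto
    | zero => exact ⟨Submodule.zero_mem _, fun _ _ _ => rfl⟩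
    | add x y _ _ hx hy =>
      refine ⟨Submodule.add_mem _ hx.1 hy.1, fun g h1 h2 => ?_⟩
      rw [Pi.add_apply, hx.2 g h1 h2, hy.2 g h1 h2, add_zero]
    | smul a x _ hx =>
      refine ⟨Submodule.smul_mem _ _ hx.1, fun g h1 h2 => ?_⟩
      rw [Pi.smul_apply, hx.2 g h1 h2, smul_zero]
  have h0 := circuit_orth h (C := C') (by rw [hCC]; exact hC) huW.1
  rw [← Finset.sum_inter_add_sum_sdiff C' A] at h0
  have h1 : ∑ g ∈ C' \ A, u g = 0 := by
    apply Finset.sum_eq_zero
    intro g hg
    rw [mem_sdiff, hmemC] at hg
    apply huW.2 g hg.2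
    intro hgD
    exact (Finset.disjoint_left.1 hDS hgD) (hCS hg.1)
  have h2 : ∑ g ∈ C' ∩ A, u g = ∑ g ∈ X, w g := by
    apply Finset.sum_congr rfl
    intro g hg
    exact congrFun huw ⟨g, (mem_inter.1 hg).2⟩
  rw [h1, add_zero, h2] at h0
  exact hwX h0

/-- The sets that are still possible. -/
noncomputable def pos (M : Matroid E) (k : ℕ) (A D : Finset E) : Finset (Finset E) := by
  classical
  exact univ.filter (fun S => A ⊆ S ∧ Disjoint D S ∧ S.card = k ∧ ConnOn M S)

lemma mem_pos {k : ℕ} {A D S : Finset E} :
    S ∈ pos M k A D ↔ A ⊆ S ∧ Disjoint D S ∧ S.card = k ∧ ConnOn M S := by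
  simp [pos]

lemma card_le_of_indep {A : Finset E} {R : Finset (Fin n)}
    (hind : LinearIndepOn (ZMod 2) (fun i => restr A (b i : E → ZMod 2)) (R : Set (Fin n))) :
    R.card ≤ A.card := by
  have h1 : LinearIndependent (ZMod 2) (fun i : R => restr A (b (i : Fin n) : E → ZMod 2)) := hind
  have h2 := h1.fintype_card_le_finrank
  rwa [Fintype.card_coe, Module.finrank_fintype_fun_eq_card, Fintype.card_coe] at h2

lemma count (h : Represents A₀ M) (hL : ∀ i, (supp (b i : E → ZMod 2)).card ≤ L) (k : ℕ) {e : E} :
    ∀ (m : ℕ) (A D : Finset E) (R : Finset (Fin n)), e ∈ A → k - R.card ≤ m →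
      (∀ j ∈ R, supp (b j : E → ZMod 2) ⊆ A ∪ D) →
      LinearIndepOn (ZMod 2) (fun i => restr A (b i : E → ZMod 2)) (R : Set (Fin n)) →
      (pos M k A D).card ≤ 2 ^ (L * m) := by
  intro m
  induction m with
  | zero =>
    intro A D R he hm hR hind
    by_cases hspan : ∀ i, restr A (b i : E → ZMod 2) ∈
      Submodule.span (ZMod 2) ((fun i => restr A (b i : E → ZMod 2)) '' (R : Set (Fin n)))
    · have h1 : pos M k A D ⊆ {A} := by
        intro S hS
        rw [mem_pos] at hS
        rw [mem_singleton]
        exact stuck h he hS.1 hS.2.1 hS.2.2.2 hR hspan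
      have := card_le_card h1
      rw [card_singleton] at this
      exact this.trans Nat.one_le_two_pow
    · push Not at hspan
      obtain ⟨i, hi⟩ := hspan
      have hiR : i ∉ R := fun hiR => hi (Submodule.subset_span ⟨i, mem_coe.2 hiR, rfl⟩)
      have h1 : pos M k A D = ∅ := by
        rw [Finset.eq_empty_iff_forall_notMem]
        intro S hS
        rw [mem_pos] at hS
        have h2 := hind.insert hi
        rw [← coe_insert] at h2
        have h3 := card_le_of_indep h2
        rw [card_insert_of_notMem hiR] at h3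
        have h4 := card_le_card hS.1
        omega
      rw [h1, card_empty]
      exact Nat.zero_le _
  | succ m ih =>
    intro A D R he hm hR hind
    by_cases hspan : ∀ i, restr A (b i : E → ZMod 2) ∈
      Submodule.span (ZMod 2) ((fun i => restr A (b i : E → ZMod 2)) '' (R : Set (Fin n)))
    · have h1 : pos M k A D ⊆ {A} := by
        intro S hS
        rw [mem_pos] at hS
        rw [mem_singleton]
        exact stuck h he hS.1 hS.2.1 hS.2.2.2 hR hspan
      have := card_le_card h1
      rw [card_singleton] at this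
      exact this.trans Nat.one_le_two_pow
    · push Not at hspan
      obtain ⟨i, hi⟩ := hspan
      have hiR : i ∉ R := fun hiR => hi (Submodule.subset_span ⟨i, mem_coe.2 hiR, rfl⟩)
      have hind' := hind.insert hi
      rw [← coe_insert] at hind'
      set U : Finset E := supp (b i : E → ZMod 2) \ (A ∪ D) with hU
      have hsub : pos M k A D ⊆ U.powerset.biUnion (fun T => pos M k (A ∪ T) (D ∪ (U \ T))) := by
        intro S hS
        rw [mem_pos] at hS
        obtain ⟨h1, h2, h3, h4⟩ := hS
        rw [mem_biUnion]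
        refine ⟨S ∩ U, mem_powerset.2 inter_subset_right, ?_⟩
        rw [mem_pos]
        refine ⟨union_subset h1 inter_subset_left, ?_, h3, h4⟩
        rw [disjoint_union_left]
        refine ⟨h2, ?_⟩
        rw [Finset.disjoint_left]
        intro x hx hxS
        rw [mem_sdiff, mem_inter] at hx
        exact hx.2 ⟨hxS, hx.1⟩
      have hbound : ∀ T ∈ U.powerset, (pos M k (A ∪ T) (D ∪ (U \ T))).card ≤ 2 ^ (L * m) := by
        intro T hT
        rw [mem_powerset] at hT
        by_cases hm' : k - (insert i R).card ≤ m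
        · refine ih (A ∪ T) (D ∪ (U \ T)) (insert i R) (mem_union_left _ he) hm' ?_ ?_
          · intro j hj x hx
            rw [mem_insert] at hj
            rw [mem_union, mem_union, mem_union, mem_sdiff]
            rcases hj with rfl | hj
            · by_cases hxU : x ∈ U
              · by_cases hxT : x ∈ T
                · exact Or.inl (Or.inr hxT)
                · exact Or.inr (Or.inr ⟨hxU, hxT⟩)
              · rw [hU, mem_sdiff, mem_union] at hxU
                tauto
            · have := hR j hj hx
              rw [mem_union] at this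
              tauto
          · have h5 : A ⊆ A ∪ T := subset_union_left
            exact LinearIndepOn.of_comp (restr' h5) hind'
        · exfalso
          rw [card_insert_of_notMem hiR] at hm'
          omega
      calc (pos M k A D).card
          ≤ (U.powerset.biUnion (fun T => pos M k (A ∪ T) (D ∪ (U \ T)))).card :=
            card_le_card hsub
        _ ≤ ∑ T ∈ U.powerset, (pos M k (A ∪ T) (D ∪ (U \ T))).card := card_biUnion_le
        _ ≤ ∑ _T ∈ U.powerset, 2 ^ (L * m) := Finset.sum_le_sum hbound
        _ = 2 ^ U.card * 2 ^ (L * m) := by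
            rw [sum_const, card_powerset, smul_eq_mul]
        _ ≤ 2 ^ L * 2 ^ (L * m) := by
            apply Nat.mul_le_mul_right
            apply Nat.pow_le_pow_right (by norm_num)
            exact (card_le_card sdiff_subset).trans (hL i)
        _ = 2 ^ (L * (m + 1)) := by
            rw [← pow_add]
            congr 1
            ring

end count

lemma lam_spec (W : Submodule (ZMod 2) (E → ZMod 2)) :
    ∃ (n : ℕ) (b : Basis (Fin n) (ZMod 2) W),
    ∀ i, (univ.filter (fun e => (b i : E → ZMod 2) e ≠ 0)).card ≤ lam W := by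
  have hne : {L | ∃ (n : ℕ) (b : Basis (Fin n) (ZMod 2) W),
    ∀ i, (univ.filter (fun e => (b i : E → ZMod 2) e ≠ 0)).card ≤ L}.Nonempty := by
    refine ⟨Fintype.card E, finrank (ZMod 2) W, finBasis (ZMod 2) W, fun i => ?_⟩
    exact (card_le_univ _)
  exact Nat.sInf_mem hne

/-- The number of sets `S` of size `k` containing `e` whose restriction in a binary matroid is
connected is at most `2 ^ (Λ k)`. -/
theorem result (E : Type) [Fintype E] [DecidableEq E] (M : Matroid E) (r : ℕ)
    (A : Matrix (Fin r) E (ZMod 2)) (h : Represents A M) (e : E) (k : ℕ) :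
    N M e k ≤ (2 ^ lam (cocycleSpace A)) ^ k := by
  obtain ⟨n, b, hb⟩ := lam_spec (cocycleSpace A)
  have h1 := count (b := b) (L := lam (cocycleSpace A)) h hb k (e := e) k {e} ∅ ∅
    (mem_singleton_self e) (Nat.sub_le _ _) (by simp) (by
      rw [coe_empty]
      exact linearIndepOn_empty _ _)
  rw [← pow_mul]
  refine le_trans ?_ h1
  unfold N
  rw [← Set.ncard_coe_finset]
  apply Set.ncard_le_ncard _ (Finset.finite_toSet _)
  rintro S ⟨h2, h3, h4⟩
  rw [mem_coe, mem_pos]
  exact ⟨singleton_subset_iff.2 h2, disjoint_empty_left _, h3, h4⟩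

end Pool.Agent.Results.MP_0dc42e_co.ConnCount
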